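import Pool.Agent.E8helper8.EC.Stm

/-! # EC, piece GLUE: gluing of continuous maps on the boundary of `Δ^n × I` -/

set_option autoImplicit false

open CategoryTheory Simplicial Opposite unitInterval

namespace Pool.Agent.E8helper68.EC

open Pool.Agent.E8helper8.EC

theorem push_apply {m n : ℕ} (α : ⦋m⦌ ⟶ ⦋n⦌) (x : Dl m) (i : Fin (n + 1)) :
    push α x i = ∑ k with α.toOrderHom k = i, x k := by
  change FunOnFinite.linearMap ℝ ℝ α.toOrderHom (x : Fin (m + 1) → ℝ) i = _
  rw [FunOnFinite.linearMap_apply_apply]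

theorem push_comp {l m n : ℕ} (β : ⦋l⦌ ⟶ ⦋m⦌) (s : ⦋m⦌ ⟶ ⦋n⦌) (x : Dl l) :
    push (β ≫ s) x = push s (push β x) :=
  (stdSimplex.map_comp_apply β.toOrderHom s.toOrderHom x).symm

theorem push_fix {n : ℕ} (r : ⦋n⦌ ⟶ ⦋n⦌) (x : Dl n)
    (h : ∀ j, x j ≠ 0 → r.toOrderHom j = j) : push r x = x := by
  apply stdSimplex.ext
  funext i
  rw [push_apply]
  by_cases hi : x i = 0
  · rw [hi]
    apply Finset.sum_eq_zero
    intro k hk
    rw [Finset.mem_filter] at hk
    by_contra hk0
    rw [h k hk0] at hk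
    rw [hk.2] at hk0
    exact hk0 hi
  · rw [Finset.sum_eq_single i]
    · intro k hk hki
      rw [Finset.mem_filter] at hk
      by_contra hk0
      rw [h k hk0] at hk
      exact hki hk.2
    · intro hi2
      exfalso
      apply hi2
      rw [Finset.mem_filter]
      exact ⟨Finset.mem_univ _, h i hi⟩

theorem le_push {m n : ℕ} (s : ⦋m⦌ ⟶ ⦋n⦌) (x : Dl m) (k : Fin (m + 1)) :
    x k ≤ push s x (s.toOrderHom k) := by
  rw [push_apply]
  exact Finset.single_le_sum (f := fun k => x k) (fun j _ => stdSimplex.zero_le x j)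
    (Finset.mem_filter.mpr ⟨Finset.mem_univ _, rfl⟩)

/-- monotone retractions onto nonempty subsets -/
theorem retr {m : ℕ} (S : Finset (Fin (m + 1))) (hS : S.Nonempty) :
    ∃ r : ⦋m⦌ ⟶ ⦋m⦌, (∀ j, r.toOrderHom j ∈ S) ∧ ∀ j ∈ S, r.toOrderHom j = j := by
  classical
  have hne : ∀ j : Fin (m + 1), (insert (S.min' hS) (S.filter (· ≤ j))).Nonempty :=
    fun j => ⟨_, Finset.mem_insert_self _ _⟩
  refine ⟨SimplexCategory.Hom.mk ⟨fun j => (insert (S.min' hS) (S.filter (· ≤ j))).max' (hne j),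
    ?_⟩, ?_, ?_⟩
  · intro a b hab
    apply Finset.max'_subset
    apply Finset.insert_subset_insert
    intro x hx
    rw [Finset.mem_filter] at hx ⊢
    exact ⟨hx.1, hx.2.trans hab⟩
  · intro j
    change (insert (S.min' hS) (S.filter (· ≤ j))).max' (hne j) ∈ S
    have h := Finset.max'_mem _ (hne j)
    rw [Finset.mem_insert] at h
    rcases h with h | h
    · rw [h]
      exact Finset.min'_mem _ _
    · exact (Finset.mem_filter.mp h).1
  · intro j hj
    change (insert (S.min' hS) (S.filter (· ≤ j))).max' (hne j) = j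
    apply le_antisymm
    · apply Finset.max'_le
      intro y hy
      rw [Finset.mem_insert] at hy
      rcases hy with h | h
      · rw [h]
        exact Finset.min'_le _ _ hj
      · exact (Finset.mem_filter.mp h).2
    · apply Finset.le_max'
      exact Finset.mem_insert_of_mem (Finset.mem_filter.mpr ⟨hj, le_rfl⟩)

theorem exists_ne {n : ℕ} (z : Dl n) : ∃ j, z j ≠ 0 := by
  by_contra h
  push Not at h
  have h1 := stdSimplex.sum_eq_one z
  rw [Finset.sum_eq_zero fun j _ => h j] at h1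
  exact zero_ne_one h1

/-- a non-surjective retraction fixing the support -/
theorem exists_retr {n : ℕ} (z : Dl n) (i : Fin (n + 1)) (hi : z i = 0) :
    ∃ r : ⦋n⦌ ⟶ ⦋n⦌, ¬ Function.Surjective r.toOrderHom ∧ ∀ j, z j ≠ 0 → r.toOrderHom j = j := by
  classical
  obtain ⟨j0, hj0⟩ := exists_ne z
  obtain ⟨r, h1, h2⟩ := retr (Finset.univ.filter fun j => z j ≠ 0)
    ⟨j0, Finset.mem_filter.mpr ⟨Finset.mem_univ _, hj0⟩⟩
  refine ⟨r, ?_, ?_⟩
  · intro hs
    obtain ⟨k, hk⟩ := hs i
    have h3 := h1 k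
    rw [hk, Finset.mem_filter] at h3
    exact h3.2 hi
  · intro j hj
    exact h2 j (Finset.mem_filter.mpr ⟨Finset.mem_univ _, hj⟩)

theorem bcongr {n : ℕ} {Y : Type} [TopologicalSpace Y]
    (b : ∀ (m : ℕ) (s : ⦋m⦌ ⟶ ⦋n⦌), ¬ Function.Surjective s.toOrderHom → C(Dl m × I, Y))
    {m : ℕ} {s s' : ⦋m⦌ ⟶ ⦋n⦌} (h : s = s') (hs : ¬ Function.Surjective s.toOrderHom)
    (hs' : ¬ Function.Surjective s'.toOrderHom) (p : Dl m × I) : b m s hs p = b m s' hs' p := by
  subst h
  rfl

theorem key {n : ℕ} {Y : Type} [TopologicalSpace Y]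
    (b : ∀ (m : ℕ) (s : ⦋m⦌ ⟶ ⦋n⦌), ¬ Function.Surjective s.toOrderHom → C(Dl m × I, Y))
    (hb : ∀ (m l : ℕ) (s : ⦋m⦌ ⟶ ⦋n⦌) (β : ⦋l⦌ ⟶ ⦋m⦌) (hs : ¬ Function.Surjective s.toOrderHom)
      (hs' : ¬ Function.Surjective (β ≫ s).toOrderHom) (x : Dl l) (t : I),
      b l (β ≫ s) hs' (x, t) = b m s hs (push β x, t))
    (m : ℕ) (s : ⦋m⦌ ⟶ ⦋n⦌) (hs : ¬ Function.Surjective s.toOrderHom) (x : Dl m) (t : I)
    (r : ⦋n⦌ ⟶ ⦋n⦌) (hr : ¬ Function.Surjective r.toOrderHom)
    (hfix : ∀ j, push s x j ≠ 0 → r.toOrderHom j = j) :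
    b m s hs (x, t) = b n r hr (push s x, t) := by
  classical
  obtain ⟨k0, hk0⟩ := exists_ne x
  have hpos : ∀ k, x k ≠ 0 → push s x (s.toOrderHom k) ≠ 0 := by
    intro k hk h
    have h1 := le_push s x k
    rw [h] at h1
    exact hk (le_antisymm h1 (stdSimplex.zero_le x k))
  obtain ⟨ρ, h1, h2⟩ := retr (Finset.univ.filter fun k => push s x (s.toOrderHom k) ≠ 0)
    ⟨k0, Finset.mem_filter.mpr ⟨Finset.mem_univ _, hpos k0 hk0⟩⟩
  have hρx : push ρ x = x := by
    apply push_fix
    intro k hk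
    exact h2 k (Finset.mem_filter.mpr ⟨Finset.mem_univ _, hpos k hk⟩)
  have e1 : ρ ≫ s = (ρ ≫ s) ≫ r := by
    apply SimplexCategory.Hom.ext
    ext k : 2
    change s.toOrderHom (ρ.toOrderHom k) = r.toOrderHom (s.toOrderHom (ρ.toOrderHom k))
    have h3 := h1 k
    rw [Finset.mem_filter] at h3
    exact (hfix _ h3.2).symm
  have hs1 : ¬ Function.Surjective (ρ ≫ s).toOrderHom := by
    intro h
    apply hs
    intro j
    obtain ⟨k, hk⟩ := h j
    exact ⟨ρ.toOrderHom k, hk⟩
  have hs2 : ¬ Function.Surjective ((ρ ≫ s) ≫ r).toOrderHom := by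
    rw [← e1]
    exact hs1
  calc b m s hs (x, t) = b m s hs (push ρ x, t) := by rw [hρx]
    _ = b m (ρ ≫ s) hs1 (x, t) := (hb _ _ _ _ _ _ _ _).symm
    _ = b m ((ρ ≫ s) ≫ r) hs2 (x, t) := bcongr b e1 _ _ _
    _ = b n r hr (push (ρ ≫ s) x, t) := hb _ _ _ _ _ _ _ _
    _ = b n r hr (push s x, t) := by rw [push_comp, hρx]

theorem t_GLUE : S_GLUE := by
  classical
  intro n Y _ b e0 e1 hb h0 h1
  have hex : ∀ z : Dl n, (∃ i, z i = 0) → ∃ r : ⦋n⦌ ⟶ ⦋n⦌,
      ¬ Function.Surjective r.toOrderHom ∧ ∀ j, z j ≠ 0 → r.toOrderHom j = j := by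
    rintro z ⟨i, hi⟩
    exact exists_retr z i hi
  choose R hR1 hR2 using hex
  let c0 : Bd n → Y := fun p =>
    if h : ∃ i, p.1.1 i = 0 then b n (R p.1.1 h) (hR1 p.1.1 h) (p.1.1, p.1.2)
    else if p.1.2 = 0 then e0 p.1.1 else e1 p.1.1
  -- the values on the faces
  have v1 : ∀ (p : Bd n) (r : ⦋n⦌ ⟶ ⦋n⦌) (hr : ¬ Function.Surjective r.toOrderHom),
      (∃ i, p.1.1 i = 0) → (∀ j, p.1.1 j ≠ 0 → r.toOrderHom j = j) →
      c0 p = b n r hr (p.1.1, p.1.2) := by
    intro p r hr h hfix
    have e : push r p.1.1 = p.1.1 := push_fix r _ hfix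
    have hk := key b hb n r hr p.1.1 p.1.2 (R p.1.1 h) (hR1 p.1.1 h) (by
      rw [e]
      exact hR2 p.1.1 h)
    rw [hk, e]
    exact dif_pos h
  have v2 : ∀ (m : ℕ) (s : ⦋m⦌ ⟶ ⦋n⦌) (hs : ¬ Function.Surjective s.toOrderHom) (x : Dl m) (t : I)
      (hp : (push s x, t) ∈ Bd n), c0 ⟨(push s x, t), hp⟩ = b m s hs (x, t) := by
    intro m s hs x t hp
    have hz : ∃ i, push s x i = 0 := by
      have hs' := hs
      unfold Function.Surjective at hs'
      push Not at hs'
      obtain ⟨i, hi⟩ := hs'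
      refine ⟨i, ?_⟩
      rw [push_apply]
      apply Finset.sum_eq_zero
      intro k hk
      rw [Finset.mem_filter] at hk
      exact absurd hk.2 (hi k)
    rw [key b hb m s hs x t (R _ hz) (hR1 _ hz) (hR2 _ hz)]
    exact dif_pos hz
  have v3 : ∀ (x : Dl n) (hp : (x, (0 : I)) ∈ Bd n), c0 ⟨(x, 0), hp⟩ = e0 x := by
    intro x hp
    by_cases hz : ∃ i, x i = 0
    · have e : push (R x hz) x = x := push_fix _ _ (hR2 x hz)
      have h2 : c0 ⟨(x, 0), hp⟩ = b n (R x hz) (hR1 x hz) (x, 0) := dif_pos hz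
      rw [h2, h0, e]
    · have h2 : c0 ⟨(x, 0), hp⟩ = if (0 : I) = 0 then e0 x else e1 x := dif_neg hz
      rw [h2, if_pos rfl]
  have v4 : ∀ (x : Dl n) (hp : (x, (1 : I)) ∈ Bd n), c0 ⟨(x, 1), hp⟩ = e1 x := by
    intro x hp
    by_cases hz : ∃ i, x i = 0
    · have e : push (R x hz) x = x := push_fix _ _ (hR2 x hz)
      have h2 : c0 ⟨(x, 1), hp⟩ = b n (R x hz) (hR1 x hz) (x, 1) := dif_pos hz
      rw [h2, h1, e]
    · have h2 : c0 ⟨(x, 1), hp⟩ = if (1 : I) = 0 then e0 x else e1 x := dif_neg hz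
      rw [h2, if_neg one_ne_zero]
  -- continuity
  have hc : Continuous c0 := by
    let f : (Fin (n + 1)) ⊕ Bool → Set (Bd n) := fun i => match i with
      | Sum.inl i => {p | p.1.1 i = 0}
      | Sum.inr false => {p | p.1.2 = 0}
      | Sum.inr true => {p | p.1.2 = 1}
    apply (locallyFinite_of_finite f).continuous
    · rw [Set.eq_univ_iff_forall]
      intro p
      rcases p.2 with ⟨i, hi⟩ | h | h
      · exact Set.mem_iUnion.mpr ⟨Sum.inl i, hi⟩
      · exact Set.mem_iUnion.mpr ⟨Sum.inr false, h⟩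
      · exact Set.mem_iUnion.mpr ⟨Sum.inr true, h⟩
    · rintro (i | (_ | _))
      · apply isClosed_eq _ continuous_const
        have h3 : Continuous fun z : Dl n => z i :=
          (continuous_apply i).comp continuous_subtype_val
        exact h3.comp (continuous_fst.comp continuous_subtype_val)
      · exact isClosed_eq (continuous_snd.comp continuous_subtype_val) continuous_const
      · exact isClosed_eq (continuous_snd.comp continuous_subtype_val) continuous_const
    · rintro (i | (_ | _))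
      · by_cases hS : (Finset.univ.erase i : Finset (Fin (n + 1))).Nonempty
        · obtain ⟨r, hr1, hr2⟩ := retr (Finset.univ.erase i) hS
          have hr : ¬ Function.Surjective r.toOrderHom := by
            intro hs
            obtain ⟨k, hk⟩ := hs i
            have h3 := hr1 k
            rw [hk] at h3
            exact Finset.notMem_erase _ _ h3
          have hcont : Continuous fun p : Bd n => b n r hr (p.1.1, p.1.2) :=
            (b n r hr).continuous.comp ((continuous_fst.comp continuous_subtype_val).prodMk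
              (continuous_snd.comp continuous_subtype_val))
          refine hcont.continuousOn.congr ?_
          intro p hp
          have hp' : p.1.1 i = 0 := hp
          apply v1 p r hr ⟨i, hp'⟩
          intro j hj
          apply hr2
          apply Finset.mem_erase.mpr
          refine ⟨?_, Finset.mem_univ _⟩
          rintro rfl
          exact hj hp'
        · have hem : f (Sum.inl i) = ∅ := by
            rw [Set.eq_empty_iff_forall_notMem]
            intro p hp
            have hp' : p.1.1 i = 0 := hp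
            obtain ⟨j, hj⟩ := exists_ne p.1.1
            apply hS
            refine ⟨j, Finset.mem_erase.mpr ⟨?_, Finset.mem_univ _⟩⟩
            rintro rfl
            exact hj hp'
          rw [hem]
          exact continuousOn_empty _
      · have hcont : Continuous fun p : Bd n => e0 p.1.1 :=
          e0.continuous.comp (continuous_fst.comp continuous_subtype_val)
        refine hcont.continuousOn.congr ?_
        intro p hp
        have hp' : p.1.2 = 0 := hp
        obtain ⟨⟨x, t⟩, hxt⟩ := p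
        change t = 0 at hp'
        subst hp'
        exact v3 x hxt
      · have hcont : Continuous fun p : Bd n => e1 p.1.1 :=
          e1.continuous.comp (continuous_fst.comp continuous_subtype_val)
        refine hcont.continuousOn.congr ?_
        intro p hp
        have hp' : p.1.2 = 1 := hp
        obtain ⟨⟨x, t⟩, hxt⟩ := p
        change t = 1 at hp'
        subst hp'
        exact v4 x hxt
  exact ⟨⟨c0, hc⟩, v2, v3, v4⟩

end Pool.Agent.E8helper68.EC
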